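import Mathlib

set_option autoImplicit false

namespace Pool.Agent.P.MP_d00095_nt

universe w

variable {R K H : Type*} [CommRing R] [Field K] [Algebra R K] [Ring H] [Algebra K H]
  [Algebra R H] [IsScalarTower R K H]

/-- A standard involution `bar` and a second `K`-linear involution `dd`. -/
structure Setup (K H : Type*) [Field K] [Ring H] [Algebra K H] where
  bar : H →ₗ[K] H
  bar_one : bar 1 = 1
  bar_mul : ∀ x y, bar (x * y) = bar y * bar x
  bar_bar : ∀ x, bar (bar x) = x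
  nrm : ∀ x, ∃ k : K, x * bar x = algebraMap K H k
  dd : H →ₗ[K] H
  dd_one : dd 1 = 1
  dd_mul : ∀ x y, dd (x * y) = dd y * dd x
  dd_dd : ∀ x, dd (dd x) = x

def Ord (K : Type*) [Field K] [Algebra K H] (O : Subalgebra R H) : Prop :=
  O.toSubmodule.FG ∧ Submodule.span K (O : Set H) = ⊤

def Stab (S : Setup K H) (O : Subalgebra R H) : Prop := ∀ x ∈ O, S.dd x ∈ O

def EucW (S : Setup K H) (O : Subalgebra R H) {W : Type w} [LinearOrder W] (Φ : H → W) : Prop :=
  ∀ a ∈ O, ∀ b ∈ O, b ≠ 0 → S.dd (a * S.dd b) = a * S.dd b →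
    ∃ q ∈ O, S.dd q = q ∧ Φ (a - b * q) < Φ b

def Euc (S : Setup K H) (O : Subalgebra R H) : Prop :=
  ∃ (W : Type w) (_ : LinearOrder W) (_ : WellFoundedLT W) (Φ : H → W), EucW S O Φ

namespace Setup
variable (S : Setup K H)

lemma bar_alg (k : K) : S.bar (algebraMap K H k) = algebraMap K H k := by
  rw [Algebra.algebraMap_eq_smul_one, map_smul, S.bar_one]

lemma dd_alg (k : K) : S.dd (algebraMap K H k) = algebraMap K H k := by
  rw [Algebra.algebraMap_eq_smul_one, map_smul, S.dd_one]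

lemma bar_rsmul (r : R) (x : H) : S.bar (r • x) = r • S.bar x := by
  rw [← algebraMap_smul K r x, map_smul, algebraMap_smul]

lemma dd_rsmul (r : R) (x : H) : S.dd (r • x) = r • S.dd x := by
  rw [← algebraMap_smul K r x, map_smul, algebraMap_smul]

lemma tr (x : H) : ∃ k : K, x + S.bar x = algebraMap K H k := by
  obtain ⟨a, ha⟩ := S.nrm (1 + x)
  obtain ⟨b, hb⟩ := S.nrm x
  refine ⟨a - b - 1, ?_⟩
  rw [map_sub, map_sub, ← ha, ← hb, map_add, S.bar_one, map_one]
  noncomm_ring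

lemma comm (x : H) : S.bar x * x = x * S.bar x := by
  obtain ⟨t, ht⟩ := S.tr x
  have : S.bar x = algebraMap K H t - x := by rw [← ht]; abel
  rw [this, sub_mul, mul_sub, Algebra.commutes]

end Setup

section orders
variable [IsDomain R] [IsFractionRing R K] [IsIntegrallyClosed R] [Nontrivial H]

lemma int_of_stab {N : Submodule R H} (hN : N ≠ ⊥) (hfg : N.FG) (t : K)
    (h : ∀ n ∈ N, t • n ∈ N) : ∃ r : R, algebraMap R K r = t :=
  IsIntegrallyClosed.isIntegral_iff.mp (isIntegral_of_smul_mem_submodule N hN hfg t h)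

lemma tr_nrm_int (S : Setup K H) {O : Subalgebra R H} (hO : O.toSubmodule.FG) {z : H}
    (hz : z ∈ O) :
    (∃ r : R, z + S.bar z = algebraMap R H r) ∧ (∃ r : R, z * S.bar z = algebraMap R H r) := by
  let B : H →ₗ[R] H := S.bar.restrictScalars R
  let N : Submodule R H := O.toSubmodule * O.toSubmodule.map B
  have hNfg : N.FG := hO.mul (hO.map B)
  have hmem : ∀ a ∈ O, ∀ b ∈ O, a * S.bar b ∈ N := fun a ha b hb =>
    Submodule.mul_mem_mul ha (Submodule.mem_map_of_mem (f := B) hb)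
  have hN0 : N ≠ ⊥ := by
    intro h
    have := hmem 1 O.one_mem 1 O.one_mem
    rw [h, S.bar_one, mul_one, Submodule.mem_bot] at this
    exact one_ne_zero this
  have key : ∀ t : K, (∀ a ∈ O, ∀ b ∈ O, a * algebraMap K H t * S.bar b ∈ N) →
      ∃ r : R, algebraMap R K r = t := by
    intro t ht
    refine int_of_stab hN0 hNfg t ?_
    intro n hn
    refine Submodule.mul_induction_on hn ?_ ?_
    · intro a ha b hb
      obtain ⟨b, hb', rfl⟩ := Submodule.mem_map.mp hb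
      have := ht a ha b hb'
      rw [← Algebra.commutes, mul_assoc, ← Algebra.smul_def] at this
      exact this
    · intro x y hx hy
      rw [smul_add]; exact N.add_mem hx hy
  constructor
  · obtain ⟨t, ht⟩ := S.tr z
    obtain ⟨r, hr⟩ := key t (by
      intro a ha b hb
      rw [← ht, mul_add, add_mul, mul_assoc a (S.bar z), ← S.bar_mul]
      exact N.add_mem (hmem _ (O.mul_mem ha hz) _ hb) (hmem _ ha _ (O.mul_mem hb hz)))
    exact ⟨r, by rw [ht, ← hr, IsScalarTower.algebraMap_apply R K H]⟩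
  · obtain ⟨t, ht⟩ := S.nrm z
    obtain ⟨r, hr⟩ := key t (by
      intro a ha b hb
      rw [← ht, ← mul_assoc, mul_assoc (a * z), ← S.bar_mul]
      exact hmem _ (O.mul_mem ha hz) _ (O.mul_mem hb hz))
    exact ⟨r, by rw [ht, ← hr, IsScalarTower.algebraMap_apply R K H]⟩

lemma bar_mem (S : Setup K H) {O : Subalgebra R H} (hO : O.toSubmodule.FG) {z : H}
    (hz : z ∈ O) : S.bar z ∈ O := by
  obtain ⟨r, hr⟩ := (tr_nrm_int S hO hz).1
  have : S.bar z = algebraMap R H r - z := by rw [← hr]; abel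
  rw [this]
  exact O.sub_mem (O.algebraMap_mem r) hz

omit [IsIntegrallyClosed R] [Nontrivial H] in
lemma exists_denom {O : Subalgebra R H} (hO : Submodule.span K (O : Set H) = ⊤) (x : H) :
    ∃ r : R, r ≠ 0 ∧ r • x ∈ O := by
  have hx : x ∈ Submodule.span K (O : Set H) := by rw [hO]; trivial
  induction hx using Submodule.span_induction with
  | mem x hx => exact ⟨1, one_ne_zero, by simpa using hx⟩
  | zero => exact ⟨1, one_ne_zero, by simpa using O.zero_mem⟩
  | add x y _ _ hx hy =>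
    obtain ⟨r, hr, hx⟩ := hx
    obtain ⟨s, hs, hy⟩ := hy
    refine ⟨r * s, mul_ne_zero hr hs, ?_⟩
    rw [smul_add]
    refine O.add_mem ?_ ?_
    · rw [mul_comm, mul_smul]; exact O.smul_mem hx s
    · rw [mul_smul]; exact O.smul_mem hy r
  | smul k x _ hx =>
    obtain ⟨r, hr, hx⟩ := hx
    obtain ⟨a, b, hb, rfl⟩ := IsFractionRing.div_surjective (A := R) k
    have hb0 : b ≠ 0 := nonZeroDivisors.ne_zero hb
    refine ⟨b * r, mul_ne_zero hb0 hr, ?_⟩
    have hbK : algebraMap R K b ≠ 0 := by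
      simpa using hb0
    have : (b * r) • (algebraMap R K a / algebraMap R K b) • x = a • r • x := by
      rw [← algebraMap_smul K (b * r), ← algebraMap_smul K a, ← algebraMap_smul K r, smul_smul,
        smul_smul]
      congr 1
      rw [map_mul]; field_simp
    rw [this]
    exact O.smul_mem hx a

omit [IsIntegrallyClosed R] [Nontrivial H] in
lemma exists_denom_fg {O : Subalgebra R H} (hO : Submodule.span K (O : Set H) = ⊤)
    {N : Submodule R H} (hN : N.FG) : ∃ r : R, r ≠ 0 ∧ ∀ x ∈ N, r • x ∈ O := by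
  induction N, hN using Submodule.fg_induction with
  | singleton x =>
    obtain ⟨r, hr, hx⟩ := exists_denom (K := K) hO x
    refine ⟨r, hr, fun y hy => ?_⟩
    obtain ⟨c, rfl⟩ := Submodule.mem_span_singleton.mp hy
    rw [smul_comm]; exact O.smul_mem hx c
  | sup M₁ M₂ _ _ h₁ h₂ =>
    obtain ⟨r, hr, hx⟩ := h₁
    obtain ⟨s, hs, hy⟩ := h₂
    refine ⟨r * s, mul_ne_zero hr hs, fun y hy' => ?_⟩
    obtain ⟨a, ha, b, hb, rfl⟩ := Submodule.mem_sup.mp hy'
    rw [smul_add]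
    refine O.add_mem ?_ ?_
    · rw [mul_comm, mul_smul]; exact O.smul_mem (hx a ha) s
    · rw [mul_smul]; exact O.smul_mem (hy b hb) r

omit [IsIntegrallyClosed R] [Nontrivial H] in
lemma rsmul_ne_zero (K : Type*) [Field K] [Algebra R K] [Algebra K H] [IsScalarTower R K H]
    [IsFractionRing R K] {r : R} (hr : r ≠ 0) {x : H} (hx : x ≠ 0) : r • x ≠ 0 := by
  rw [← algebraMap_smul K r x]
  exact smul_ne_zero (by simpa using hr) hx

omit [IsIntegrallyClosed R] [Nontrivial H] in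
/-- The Euclidean property passes to every order containing the symmetric elements. -/
lemma euc_of_sym_le (S : Setup K H) {O O' : Subalgebra R H} (hO : Ord K O) (hO' : Ord K O')
    (hle : ∀ q ∈ O, S.dd q = q → q ∈ O') (hE : Euc.{w} S O) : Euc.{w} S O' := by
  obtain ⟨W, i1, i2, Φ, hΦ⟩ := hE
  obtain ⟨N, hN, hNO⟩ := exists_denom_fg (K := K) hO.2 hO'.1
  refine ⟨W, i1, i2, fun x => Φ (N • x), ?_⟩
  intro a ha b hb hb0 hab
  obtain ⟨q, hq, hqs, hlt⟩ := hΦ (N • a) (hNO a ha) (N • b) (hNO b hb) (rsmul_ne_zero K hN hb0) (by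
    rw [S.dd_rsmul, smul_mul_smul_comm, S.dd_rsmul, hab])
  refine ⟨q, hle q hq hqs, hqs, ?_⟩
  simpa [smul_sub] using hlt

end orders

/-- The twisted Euclidean algorithm produces a generator of `aO + bO`. -/
lemma principal (S : Setup K H) {O : Subalgebra R H} (hE : Euc.{w} S O) :
    ∀ b ∈ O, ∀ a ∈ O, S.dd (a * S.dd b) = a * S.dd b →
      ∃ g, (∃ x ∈ O, ∃ y ∈ O, g = a * x + b * y) ∧ (∃ x ∈ O, a = g * x) ∧ (∃ y ∈ O, b = g * y) := by
  obtain ⟨W, i1, i2, Φ, hΦ⟩ := hE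
  intro b
  induction b using (InvImage.wf Φ (wellFounded_lt (α := W))).induction with
  | _ b ih =>
    intro hb a ha hab
    by_cases hb0 : b = 0
    · exact ⟨a, ⟨1, O.one_mem, 0, O.zero_mem, by simp⟩, ⟨1, O.one_mem, by simp⟩,
        ⟨0, O.zero_mem, by simp [hb0]⟩⟩
    obtain ⟨q, hq, hqs, hlt⟩ := hΦ a ha b hb hb0 hab
    have hr : a - b * q ∈ O := O.sub_mem ha (O.mul_mem hb hq)
    have hab' : b * S.dd a = a * S.dd b := by
      rw [← hab, S.dd_mul, S.dd_dd]
    obtain ⟨g, ⟨x, hx, y, hy, hg⟩, ⟨x', hx', h1⟩, ⟨y', hy', h2⟩⟩ := ih (a - b * q) hlt hr b hb (by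
      rw [S.dd_mul, S.dd_dd, map_sub, S.dd_mul, hqs, mul_sub, sub_mul, hab', mul_assoc])
    refine ⟨g, ⟨y, hy, x - q * y, O.sub_mem hx (O.mul_mem hq hy), ?_⟩,
      ⟨y' + x' * q, O.add_mem hy' (O.mul_mem hx' hq), ?_⟩, ⟨x', hx', h1⟩⟩
    · rw [hg]; noncomm_ring
    · rw [mul_add, ← h2, ← mul_assoc, ← h1]; abel

/-- The conjugate order `c O c⁻¹`. -/
def conjO (O : Subalgebra R H) (c : Hˣ) : Subalgebra R H where
  carrier := {x | (c⁻¹ : Hˣ) * x * c ∈ O}
  mul_mem' := by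
    intro a b ha hb
    have := O.mul_mem ha hb
    simpa [mul_assoc] using this
  add_mem' := by
    intro a b ha hb
    have := O.add_mem ha hb
    simpa [mul_add, add_mul] using this
  algebraMap_mem' := by
    intro r
    have : ((c⁻¹ : Hˣ) : H) * algebraMap R H r * c = algebraMap R H r := by
      rw [← Algebra.commutes, mul_assoc, Units.inv_mul, mul_one]
    simpa [this] using O.algebraMap_mem r

lemma mem_conjO {O : Subalgebra R H} {c : Hˣ} {x : H} :
    x ∈ conjO O c ↔ (c⁻¹ : Hˣ) * x * c ∈ O := Iff.rfl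

lemma ord_conjO {O : Subalgebra R H} (hO : Ord K O) (c : Hˣ) : Ord K (conjO O c) := by
  constructor
  · let f : H →ₗ[R] H := LinearMap.mulLeftRight R ((c : H), ((c⁻¹ : Hˣ) : H))
    have : (conjO O c).toSubmodule = O.toSubmodule.map f := by
      ext x
      simp only [Subalgebra.mem_toSubmodule, mem_conjO, Submodule.mem_map, f,
        LinearMap.mulLeftRight_apply]
      constructor
      · intro h; exact ⟨_, h, by simp [mul_assoc]⟩
      · rintro ⟨y, hy, rfl⟩; simpa [mul_assoc] using hy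
    rw [this]; exact hO.1.map f
  · rw [eq_top_iff]
    intro x _
    have hx : ((c⁻¹ : Hˣ) : H) * x * c ∈ Submodule.span K (O : Set H) := by rw [hO.2]; trivial
    have key : ∀ y ∈ Submodule.span K (O : Set H),
        (c : H) * y * (c⁻¹ : Hˣ) ∈ Submodule.span K (conjO O c : Set H) := by
      intro y hy
      induction hy using Submodule.span_induction with
      | mem y hy =>
        refine Submodule.subset_span ?_
        show _ ∈ conjO O c
        rw [mem_conjO]; simpa [mul_assoc] using hy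
      | zero => simp
      | add a b _ _ ha hb => simpa [mul_add, add_mul] using Submodule.add_mem _ ha hb
      | smul k a _ ha => simpa using Submodule.smul_mem _ k ha
    simpa [mul_assoc] using key _ hx

/-- If `c‡ c` is a scalar times a unit of `O`, then `c O c⁻¹` is again stable and Euclidean. -/
lemma conj_good (S : Setup K H) {O : Subalgebra R H} (hS : Stab S O) (hE : Euc.{w} S O)
    (c v : Hˣ) (hv : (v : H) ∈ O) (hv' : ((v⁻¹ : Hˣ) : H) ∈ O) (n : K) (hn : n ≠ 0)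
    (hc : S.dd c = n • ((v : H) * (c⁻¹ : Hˣ))) :
    Stab S (conjO O c) ∧ Euc.{w} S (conjO O c) := by
  have ddinv : ∀ k : Hˣ, S.dd k * S.dd (k⁻¹ : Hˣ) = 1 ∧ S.dd (k⁻¹ : Hˣ) * S.dd k = 1 := by
    intro k
    constructor <;> rw [← S.dd_mul] <;> simp [S.dd_one]
  have hc' : S.dd (c⁻¹ : Hˣ) = n⁻¹ • ((c : H) * (v⁻¹ : Hˣ)) := by
    have h1 := (ddinv c).1
    rw [hc] at h1
    calc S.dd (c⁻¹ : Hˣ)
        = (n⁻¹ • ((c : H) * (v⁻¹ : Hˣ))) * (n • ((v : H) * (c⁻¹ : Hˣ)) * S.dd (c⁻¹ : Hˣ)) := by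
          rw [← mul_assoc, smul_mul_smul_comm, inv_mul_cancel₀ hn]
          simp [mul_assoc]
      _ = _ := by rw [h1, mul_one]
  have hdd : ∀ x : H, S.dd ((c : H) * x * (c⁻¹ : Hˣ))
      = c * ((v⁻¹ : Hˣ) * S.dd x * v) * (c⁻¹ : Hˣ) := by
    intro x
    rw [S.dd_mul, S.dd_mul, hc, hc', mul_smul_comm, smul_mul_smul_comm, inv_mul_cancel₀ hn]
    simp [mul_assoc]
  have hx : ∀ x : H, x = (c : H) * ((c⁻¹ : Hˣ) * x * c) * (c⁻¹ : Hˣ) := by
    intro x; simp [mul_assoc]
  constructor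
  · intro x hxO
    rw [mem_conjO] at hxO ⊢
    rw [hx x, hdd]
    have := O.mul_mem (O.mul_mem hv' (hS _ hxO)) hv
    simpa [mul_assoc] using this
  · obtain ⟨W, i1, i2, Φ, hΦ⟩ := hE
    let U : Set Hˣ := {k | (k : H) ∈ O ∧ ((k⁻¹ : Hˣ) : H) ∈ O}
    have hne : ∀ a : H, ((fun k : Hˣ => Φ (a * k)) '' U).Nonempty := fun a =>
      ⟨_, 1, ⟨by simpa using O.one_mem, by simpa using O.one_mem⟩, rfl⟩
    let Ψ : H → W := fun a => (wellFounded_lt (α := W)).min _ (hne a)
    have hΨle : ∀ a : H, ∀ k ∈ U, Ψ a ≤ Φ (a * k) := fun a k hk =>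
      not_lt.mp ((wellFounded_lt (α := W)).not_lt_min ((fun k : Hˣ => Φ (a * k)) '' U)
        (Set.mem_image_of_mem _ hk))
    have hΨeq : ∀ a : H, ∃ k ∈ U, Φ (a * k) = Ψ a := fun a =>
      (wellFounded_lt (α := W)).min_mem _ (hne a)
    refine ⟨W, i1, i2, fun x => Ψ ((c⁻¹ : Hˣ) * x * c), ?_⟩
    intro a ha b hb hb0 hab
    rw [mem_conjO] at ha hb
    set a0 : H := (c⁻¹ : Hˣ) * a * c with ha0
    set b0 : H := (c⁻¹ : Hˣ) * b * c with hb0'
    have hae : a = c * a0 * (c⁻¹ : Hˣ) := hx a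
    have hbe : b = c * b0 * (c⁻¹ : Hˣ) := hx b
    obtain ⟨k, hk, hkΦ⟩ := hΨeq b0
    let k' : Hˣ := ⟨S.dd (k⁻¹ : Hˣ), S.dd k, (ddinv k).2, (ddinv k).1⟩
    have hk'U : v⁻¹ * k' ∈ U := by
      refine ⟨?_, ?_⟩
      · exact O.mul_mem hv' (hS _ hk.2)
      · rw [mul_inv_rev, inv_inv]; exact O.mul_mem (hS _ hk.1) hv
    have hsym : S.dd (a0 * (v⁻¹ : Hˣ) * S.dd b0) = a0 * (v⁻¹ : Hˣ) * S.dd b0 := by
      have e1 : a * S.dd b = c * (a0 * (v⁻¹ : Hˣ) * S.dd b0 * v) * (c⁻¹ : Hˣ) := by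
        have e0 : S.dd b = c * ((v⁻¹ : Hˣ) * S.dd b0 * v) * (c⁻¹ : Hˣ) := by
          rw [← hdd, ← hbe]
        rw [e0, ha0]; simp [mul_assoc]
      rw [e1, hdd] at hab
      have e2 : ((v⁻¹ : Hˣ) : H) * S.dd (a0 * (v⁻¹ : Hˣ) * S.dd b0 * v) * v
          = a0 * (v⁻¹ : Hˣ) * S.dd b0 * v := by
        have := congrArg (fun x => ((c⁻¹ : Hˣ) : H) * x * c) hab
        simpa [mul_assoc] using this
      have e3 : S.dd v = v := by
        have h1 : S.dd c * c = n • (v : H) := by rw [hc]; simp [mul_assoc]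
        have h2 : S.dd (S.dd c * c) = S.dd c * c := by rw [S.dd_mul, S.dd_dd]
        rw [h1, map_smul] at h2
        exact smul_right_injective H hn h2
      rw [S.dd_mul, e3] at e2
      have := congrArg (fun x => x * ((v⁻¹ : Hˣ) : H)) e2
      simpa [mul_assoc] using this
    have e3 : S.dd v = v := by
      have h1 : S.dd c * c = n • (v : H) := by rw [hc]; simp [mul_assoc]
      have h2 : S.dd (S.dd c * c) = S.dd c * c := by rw [S.dd_mul, S.dd_dd]
      rw [h1, map_smul] at h2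
      exact smul_right_injective H hn h2
    obtain ⟨q, hq, hqs, hlt⟩ := hΦ (a0 * (v⁻¹ * k' : Hˣ)) (O.mul_mem ha hk'U.1) (b0 * k)
      (O.mul_mem hb hk.1) (by
        intro h
        apply hb0
        have : b0 = 0 := by simpa using h
        rw [hbe, this]; simp) (by
        have : a0 * (v⁻¹ * k' : Hˣ) * S.dd (b0 * k) = a0 * (v⁻¹ : Hˣ) * S.dd b0 := by
          rw [S.dd_mul, Units.val_mul]
          show a0 * ((v⁻¹ : Hˣ) * S.dd (k⁻¹ : Hˣ)) * (S.dd k * S.dd b0) = _
          rw [mul_assoc a0, mul_assoc ((v⁻¹ : Hˣ) : H), ← mul_assoc (S.dd (k⁻¹ : Hˣ)),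
            (ddinv k).2, one_mul, mul_assoc a0]
        rw [this]; exact hsym)
    refine ⟨c * (k * q * S.dd k * v) * (c⁻¹ : Hˣ), ?_, ?_, ?_⟩
    · rw [mem_conjO]
      have := O.mul_mem (O.mul_mem (O.mul_mem hk.1 hq) (hS _ hk.1)) hv
      simpa [mul_assoc] using this
    · rw [hdd, S.dd_mul, S.dd_mul, S.dd_mul, S.dd_dd, hqs, e3]
      simp [mul_assoc]
    · show Ψ _ < Ψ b0
      rw [← hkΦ]
      refine lt_of_le_of_lt (hΨle _ _ hk'U) (lt_of_eq_of_lt ?_ hlt)
      congr 1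
      have e4 : ((c⁻¹ : Hˣ) : H) * (a - b * (c * (k * q * S.dd k * v) * (c⁻¹ : Hˣ))) * c
          = a0 - b0 * (k * q * S.dd k * v) := by
        rw [ha0, hb0']; simp [mul_sub, sub_mul, mul_assoc]
      rw [e4, sub_mul, Units.val_mul]
      congr 1
      show b0 * (k * q * S.dd k * v) * ((v⁻¹ : Hˣ) * S.dd (k⁻¹ : Hˣ)) = _
      simp [mul_assoc, (ddinv k).1]

section main
variable [IsDomain R] [IsFractionRing R K] [IsIntegrallyClosed R] [Nontrivial H]

/-- Descent step. -/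
lemma descent (S : Setup K H) {O O' : Subalgebra R H} (hO : Ord K O) (hS : Stab S O)
    (hE : Euc.{w} S O) (hO' : O'.toSubmodule.FG) {z y : H} (hz : z ∈ O') (hy : S.dd y = y)
    (hzy : z - y ∈ O) :
    ∃ O₁ : Subalgebra R H, Ord K O₁ ∧ Stab S O₁ ∧ Euc.{w} S O₁ ∧ z ∈ O₁ ∧
      ∀ x ∈ O, x ∈ O' → x ∈ O₁ := by
  obtain ⟨N, hN, hNy⟩ := exists_denom (K := K) hO.2 y
  have hNK : algebraMap R K N ≠ 0 := by simpa using hN
  obtain ⟨g, ⟨x1, hx1, x2, hx2, hg⟩, ⟨x3, hx3, h3⟩, ⟨x4, hx4, h4⟩⟩ :=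
    principal S hE (N • (1 : H)) (O.smul_mem O.one_mem N) (N • y) hNy (by
      rw [S.dd_rsmul, S.dd_one, smul_mul_smul_comm, mul_one, S.dd_rsmul, hy])
  set c : H := y * x1 + x2 with hcdef
  have hgc : g = N • c := by rw [hg, hcdef]; simp [smul_add]
  have cancel : ∀ a b : H, N • a = N • b → a = b := by
    intro a b h
    rw [← algebraMap_smul K N a, ← algebraMap_smul K N b] at h
    exact smul_right_injective H hNK h
  have h3' : y = c * x3 := cancel _ _ (by rw [h3, hgc, smul_mul_assoc])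
  have h4' : (1 : H) = c * x4 := cancel _ _ (by rw [h4, hgc, smul_mul_assoc])
  obtain ⟨n, hn⟩ := S.nrm c
  have hbc : S.bar c = n • x4 := by
    calc S.bar c = S.bar c * (c * x4) := by rw [← h4', mul_one]
      _ = n • x4 := by rw [← mul_assoc, S.comm, hn, Algebra.smul_def]
  have hn0 : n ≠ 0 := by
    intro h0
    have : S.bar c = 0 := by rw [hbc, h0, zero_smul]
    have hc0 : c = 0 := by rw [← S.bar_bar c, this, map_zero]
    rw [hc0, zero_mul] at h4'
    exact one_ne_zero h4'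
  have h4'' : x4 * c = 1 := by
    have : n • (x4 * c) = n • (1 : H) := by
      rw [← smul_mul_assoc, ← hbc, S.comm, hn, Algebra.algebraMap_eq_smul_one]
    exact smul_right_injective H hn0 this
  let cu : Hˣ := ⟨c, x4, h4'.symm, h4''⟩
  -- the trace of `y` is integral
  obtain ⟨t1, ht1⟩ := (tr_nrm_int S hO' hz).1
  obtain ⟨nz, hnz⟩ := (tr_nrm_int S hO' hz).2
  obtain ⟨t2, ht2⟩ := (tr_nrm_int S hO.1 hzy).1
  have hty : S.bar y = algebraMap R H (t1 - t2) - y := by
    rw [map_sub, ← ht1, ← ht2, map_sub]; abel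
  have hty' : y = algebraMap R H (t1 - t2) - S.bar y := by rw [hty]; abel
  have hbar : ∀ x ∈ O, S.bar x ∈ O := fun x hx => bar_mem S hO.1 hx
  -- `O * bar c = O * dd c`
  have hyd : y = S.dd x3 * S.dd c := by rw [← S.dd_mul, ← h3', hy]
  have h1d : (1 : H) = S.dd x4 * S.dd c := by rw [← S.dd_mul, ← h4', S.dd_one]
  have hyb : S.bar y = S.bar x3 * S.bar c := by rw [← S.bar_mul, ← h3']
  have h1b : (1 : H) = S.bar x4 * S.bar c := by rw [← S.bar_mul, ← h4', S.bar_one]
  set T : H := algebraMap R H (t1 - t2) with hT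
  have hTO : T ∈ O := O.algebraMap_mem _
  set v : H := S.dd x1 * (T * S.bar x4 - S.bar x3) + S.dd x2 * S.bar x4 with hv
  set v' : H := S.bar x1 * (T * S.dd x4 - S.dd x3) + S.bar x2 * S.dd x4 with hv'
  have hvO : v ∈ O := O.add_mem (O.mul_mem (hS _ hx1) (O.sub_mem (O.mul_mem hTO (hbar _ hx4))
    (hbar _ hx3))) (O.mul_mem (hS _ hx2) (hbar _ hx4))
  have hv'O : v' ∈ O := O.add_mem (O.mul_mem (hbar _ hx1) (O.sub_mem (O.mul_mem hTO (hS _ hx4))
    (hS _ hx3))) (O.mul_mem (hbar _ hx2) (hS _ hx4))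
  have e1 : S.dd c = v * S.bar c := by
    have : v * S.bar c = S.dd x1 * (T * (S.bar x4 * S.bar c) - S.bar x3 * S.bar c)
        + S.dd x2 * (S.bar x4 * S.bar c) := by rw [hv]; noncomm_ring
    rw [this, ← h1b, ← hyb, mul_one, mul_one, ← hty']
    conv_lhs => rw [hcdef, map_add, S.dd_mul, hy]
  have e2 : S.bar c = v' * S.dd c := by
    have : v' * S.dd c = S.bar x1 * (T * (S.dd x4 * S.dd c) - S.dd x3 * S.dd c)
        + S.bar x2 * (S.dd x4 * S.dd c) := by rw [hv']; noncomm_ring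
    rw [this, ← h1d, ← hyd, mul_one, mul_one, ← hty]
    conv_lhs => rw [hcdef, map_add, S.bar_mul]
  have hvv' : v * v' = 1 := by
    have h : v * v' * S.dd c = S.dd c := by rw [mul_assoc, ← e2, ← e1]
    have h' : S.dd c * S.dd x4 = 1 := by rw [← S.dd_mul, h4'', S.dd_one]
    calc v * v' = v * v' * (S.dd c * S.dd x4) := by rw [h', mul_one]
      _ = 1 := by rw [← mul_assoc, h, h']
  have hv'v : v' * v = 1 := by
    have h : v' * v * S.bar c = S.bar c := by rw [mul_assoc, ← e1, ← e2]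
    have h' : S.bar c * S.bar x4 = 1 := by rw [← S.bar_mul, h4'', S.bar_one]
    calc v' * v = v' * v * (S.bar c * S.bar x4) := by rw [h', mul_one]
      _ = 1 := by rw [← mul_assoc, h, h']
  let vu : Hˣ := ⟨v, v', hvv', hv'v⟩
  obtain ⟨g1, g2⟩ := conj_good.{w} S hS hE cu vu hvO hv'O n hn0 (by
    show S.dd c = n • (v * x4)
    rw [e1, hbc, mul_smul_comm])
  -- membership criterion
  have hJ : ∀ a ∈ O, ∀ b ∈ O, x4 * (a + z * b) ∈ O := by
    intro a ha b hb
    have : x4 * (a + z * b) = x4 * (a + (z - y) * b) + x3 * b := by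
      have h5 : x4 * y = x3 := by rw [h3', ← mul_assoc, h4'', one_mul]
      rw [← h5]; noncomm_ring
    rw [this]
    exact O.add_mem (O.mul_mem hx4 (O.add_mem ha (O.mul_mem hzy hb))) (O.mul_mem hx3 hb)
  have hcz : c = (x2 - (z - y) * x1) + z * x1 := by rw [hcdef]; noncomm_ring
  have ha0 : x2 - (z - y) * x1 ∈ O := O.sub_mem hx2 (O.mul_mem hzy hx1)
  refine ⟨conjO O cu, ord_conjO hO cu, g1, g2, ?_, ?_⟩
  · show x4 * z * c ∈ O
    have hzz : z * z = z * algebraMap R H t1 - algebraMap R H nz := by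
      rw [← ht1, ← hnz]; noncomm_ring
    have : x4 * z * c = x4 * (-(algebraMap R H nz * x1)
        + z * ((x2 - (z - y) * x1) + algebraMap R H t1 * x1)) := by
      rw [hcz, mul_assoc, mul_add, ← mul_assoc z z, hzz]; noncomm_ring
    rw [this]
    exact hJ _ (O.neg_mem (O.mul_mem (O.algebraMap_mem _) hx1)) _
      (O.add_mem ha0 (O.mul_mem (O.algebraMap_mem _) hx1))
  · intro x hx hx'
    show x4 * x * c ∈ O
    obtain ⟨s, hs⟩ := (tr_nrm_int S hO' (O'.mul_mem hx' hz)).1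
    have hxz : x * z = algebraMap R H s - algebraMap R H t1 * S.bar x + z * S.bar x := by
      rw [← hs, ← ht1, S.bar_mul]; noncomm_ring
    have : x4 * x * c = x4 * ((x * (x2 - (z - y) * x1)
        + (algebraMap R H s - algebraMap R H t1 * S.bar x) * x1) + z * (S.bar x * x1)) := by
      rw [hcz, mul_assoc, mul_add, ← mul_assoc x z, hxz]; noncomm_ring
    rw [this]
    exact hJ _ (O.add_mem (O.mul_mem hx ha0) (O.mul_mem (O.sub_mem (O.algebraMap_mem _)
      (O.mul_mem (O.algebraMap_mem _) (hbar _ hx))) hx1)) _ (O.mul_mem (hbar _ hx) hx1)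

/-- Adjoining a symmetric integral element with integral traces to a stable order. -/
lemma adjoin_sym (S : Setup K H) {O : Subalgebra R H} (hO : Ord K O) (hS : Stab S O) {q : H}
    (hq : S.dd q = q) (ht : ∃ r : R, q + S.bar q = algebraMap R H r)
    (hn : ∃ r : R, q * S.bar q = algebraMap R H r)
    (htr : ∀ z ∈ O, ∃ r : R, q * z + S.bar (q * z) = algebraMap R H r) :
    ∃ O₁ : Subalgebra R H, Ord K O₁ ∧ Stab S O₁ ∧ O ≤ O₁ ∧ q ∈ O₁ := by
  obtain ⟨t, ht⟩ := ht
  obtain ⟨n, hn⟩ := hn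
  have hbar : ∀ x ∈ O, S.bar x ∈ O := fun x hx => bar_mem S hO.1 hx
  have hqz : ∀ z ∈ O, ∃ a ∈ O, ∃ b ∈ O, q * z = a + b * q := by
    intro z hz
    obtain ⟨r, hr⟩ := htr z hz
    refine ⟨algebraMap R H r - S.bar z * algebraMap R H t, O.sub_mem (O.algebraMap_mem _)
      (O.mul_mem (hbar _ hz) (O.algebraMap_mem _)), S.bar z, hbar _ hz, ?_⟩
    rw [← hr, ← ht, S.bar_mul]; noncomm_ring
  have hqq : q * q = algebraMap R H t * q - algebraMap R H n := by
    rw [← ht, ← hn, ← S.comm]; noncomm_ring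
  let O₁ : Subalgebra R H :=
    { carrier := {x | ∃ a ∈ O, ∃ b ∈ O, x = a + b * q}
      mul_mem' := by
        rintro _ _ ⟨a, ha, b, hb, rfl⟩ ⟨c, hc, d, hd, rfl⟩
        obtain ⟨a1, ha1, b1, hb1, e1⟩ := hqz c hc
        obtain ⟨a2, ha2, b2, hb2, e2⟩ := hqz d hd
        refine ⟨a * c + b * a1 - b * b2 * algebraMap R H n,
          O.sub_mem (O.add_mem (O.mul_mem ha hc) (O.mul_mem hb ha1))
            (O.mul_mem (O.mul_mem hb hb2) (O.algebraMap_mem _)),
          a * d + b * b1 + b * a2 + b * b2 * algebraMap R H t,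
          O.add_mem (O.add_mem (O.add_mem (O.mul_mem ha hd) (O.mul_mem hb hb1)) (O.mul_mem hb ha2))
            (O.mul_mem (O.mul_mem hb hb2) (O.algebraMap_mem _)), ?_⟩
        calc (a + b * q) * (c + d * q)
            = a * c + a * d * q + b * (q * c) + b * (q * d) * q := by noncomm_ring
          _ = a * c + a * d * q + b * (a1 + b1 * q) + b * a2 * q + b * b2 * (q * q) := by
            rw [e1, e2]; noncomm_ring
          _ = _ := by rw [hqq]; noncomm_ring
      add_mem' := by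
        rintro _ _ ⟨a, ha, b, hb, rfl⟩ ⟨c, hc, d, hd, rfl⟩
        exact ⟨a + c, O.add_mem ha hc, b + d, O.add_mem hb hd, by noncomm_ring⟩
      algebraMap_mem' := fun r => ⟨_, O.algebraMap_mem r, 0, O.zero_mem, by simp⟩ }
  have hle : O ≤ O₁ := fun x hx => ⟨x, hx, 0, O.zero_mem, by simp⟩
  refine ⟨O₁, ⟨?_, ?_⟩, ?_, hle, ⟨0, O.zero_mem, 1, O.one_mem, by simp⟩⟩
  · have : O₁.toSubmodule = O.toSubmodule ⊔ O.toSubmodule.map (LinearMap.mulRight R q) := by
      ext x
      rw [Submodule.mem_sup]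
      constructor
      · rintro ⟨a, ha, b, hb, rfl⟩
        exact ⟨a, ha, b * q, ⟨b, hb, rfl⟩, rfl⟩
      · rintro ⟨a, ha, _, ⟨b, hb, rfl⟩, rfl⟩
        exact ⟨a, ha, b, hb, rfl⟩
    rw [this]
    exact hO.1.sup (hO.1.map _)
  · rw [eq_top_iff, ← hO.2]
    exact Submodule.span_mono hle
  · rintro _ ⟨a, ha, b, hb, rfl⟩
    obtain ⟨a1, ha1, b1, hb1, e1⟩ := hqz _ (hS b hb)
    exact ⟨S.dd a + a1, O.add_mem (hS a ha) ha1, b1, hb1, by
      rw [map_add, S.dd_mul, hq, e1, add_assoc]⟩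

theorem main [IsNoetherianRing R] (S : Setup K H)
    (hex : ∃ O : Subalgebra R H, Ord K O ∧ Stab S O ∧ Euc.{w} S O)
    {O' : Subalgebra R H} (hO' : Ord K O') (hS' : Stab S O')
    (hmax : ∀ O₁ : Subalgebra R H, Ord K O₁ → Stab S O₁ → O' ≤ O₁ → O₁ ≤ O') :
    Euc.{w} S O' := by
  have hnoe : IsNoetherian R O'.toSubmodule := isNoetherian_of_fg_of_noetherian _ hO'.1
  let F : Set (Submodule R O'.toSubmodule) :=
    {N | ∃ O : Subalgebra R H, Ord K O ∧ Stab S O ∧ Euc.{w} S O ∧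
      N = O.toSubmodule.comap O'.toSubmodule.subtype}
  have hF : F.Nonempty := by
    obtain ⟨O, h1, h2, h3⟩ := hex
    exact ⟨_, O, h1, h2, h3, rfl⟩
  obtain ⟨_, ⟨O, hO, hS, hE, rfl⟩, hmaxF⟩ := set_has_maximal_iff_noetherian.mpr hnoe F hF
  have step1 : ∀ z ∈ O', ∀ y, S.dd y = y → z - y ∈ O → z ∈ O := by
    intro z hz y hy hzy
    obtain ⟨O₁, h1, h2, h3, h4, h5⟩ := descent.{w} S hO hS hE hO'.1 hz hy hzy
    by_contra hzO
    refine hmaxF _ ⟨O₁, h1, h2, h3, rfl⟩ (lt_of_le_of_ne ?_ ?_)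
    · intro x hx
      exact h5 x hx x.2
    · intro h
      have : (⟨z, hz⟩ : O'.toSubmodule) ∈ O₁.toSubmodule.comap O'.toSubmodule.subtype := h4
      rw [← h] at this
      exact hzO this
  have step2 : ∀ z ∈ O', z + S.dd z ∈ O := by
    intro z hz
    refine step1 _ (O'.add_mem hz (hS' z hz)) (z + S.dd z) ?_ (by simp)
    rw [map_add, S.dd_dd, add_comm]
  have hbar : ∀ x ∈ O, S.bar x ∈ O := fun x hx => bar_mem S hO.1 hx
  have step3 : ∀ q ∈ O, S.dd q = q → ∀ z ∈ O',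
      ∃ r : R, q * z + S.bar (q * z) = algebraMap R H r := by
    intro q hq hqs z hz
    by_cases hz0 : z = 0
    · exact ⟨0, by simp [hz0]⟩
    obtain ⟨t, ht⟩ := S.tr (q * z)
    obtain ⟨nz, hnz⟩ := (tr_nrm_int S hO'.1 hz).2
    let N : Submodule R H := O.toSubmodule ⊓ Submodule.span R {z}
    have hNfg : N.FG := by
      have : IsNoetherian R O.toSubmodule := isNoetherian_of_fg_of_noetherian _ hO.1
      exact Submodule.FG.of_le hO.1 inf_le_left
    have hN0 : N ≠ ⊥ := by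
      obtain ⟨r, hr, hrz⟩ := exists_denom (K := K) hO.2 z
      intro h
      have : r • z ∈ N := ⟨hrz, Submodule.smul_mem _ r (Submodule.mem_span_singleton_self z)⟩
      rw [h, Submodule.mem_bot] at this
      exact rsmul_ne_zero K hr hz0 this
    obtain ⟨r, hr⟩ := int_of_stab hN0 hNfg t (by
      rintro m ⟨hmO, hm⟩
      obtain ⟨l, rfl⟩ := Submodule.mem_span_singleton.mp hm
      have hlz : l • z ∈ O := hmO
      obtain ⟨s, hs⟩ := (tr_nrm_int S hO.1 (O.mul_mem hq hlz)).1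
      have hs' : algebraMap R H s = l • algebraMap K H t := by
        rw [← hs, ← ht, mul_smul_comm, S.bar_rsmul, smul_add]
      have hts : t • l • z = s • z := by
        rw [Algebra.smul_def s, hs', smul_mul_assoc, ← Algebra.smul_def, smul_comm]
      rw [hts]
      refine ⟨?_, Submodule.smul_mem _ s (Submodule.mem_span_singleton_self z)⟩
      refine step1 _ (O'.smul_mem hz s) (-(l • (z * q * S.dd z))) ?_ ?_
      · rw [map_neg, S.dd_rsmul, S.dd_mul, S.dd_mul, S.dd_dd, hqs, mul_assoc]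
      · have hzqz : z * q * z = algebraMap K H t * z - algebraMap R H nz * S.bar q := by
          rw [Algebra.commutes, ← ht, ← hnz, S.bar_mul]; noncomm_ring
        have : s • z - -(l • (z * q * S.dd z))
            = (l • z) * q * (z + S.dd z) + l • (algebraMap R H nz * S.bar q) := by
          rw [Algebra.smul_def s, hs', mul_add, smul_mul_assoc, smul_mul_assoc, smul_mul_assoc,
            smul_mul_assoc, hzqz, smul_sub]
          abel
        rw [this]
        exact O.add_mem (O.mul_mem (O.mul_mem hlz hq) (step2 z hz))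
          (O.smul_mem (O.mul_mem (O.algebraMap_mem _) (hbar _ hq)) l))
    exact ⟨r, by rw [ht, ← hr, IsScalarTower.algebraMap_apply R K H]⟩
  refine euc_of_sym_le S hO hO' ?_ hE
  intro q hq hqs
  obtain ⟨O₁, h1, h2, h3, h4⟩ := adjoin_sym S hO' hS' hqs (tr_nrm_int S hO.1 hq).1
    (tr_nrm_int S hO.1 hq).2 (step3 q hq hqs)
  exact hmax O₁ h1 h2 h3 h4

end main

end Pool.Agent.P.MP_d00095_nt
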